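import Pool.Agent.Lib.MP_799fdf_al.Jnf.Defs

/-! # Basic facts about `Setup` -/

set_option autoImplicit false

open scoped commutatorElement

namespace MP799fdf

namespace Jnf

open Inn

/-- PROOF. `Subgroup.map_subtype_commutator` or: the map of `⁅⊤, ⊤⁆` by `L.subtype` is `⁅L, L⁆ = L`
(`Subgroup.map_commutator`), and `Subgroup.map_injective`. -/
theorem perf_top {K : Type} [Group K] {L : Subgroup K} (h : ⁅L, L⁆ = L) :
    ⁅(⊤ : Subgroup L), (⊤ : Subgroup L)⁆ = ⊤ := by
  sorry

/-- PROOF. `(N ⊔ f.ker) ⊓ R = N` as `R ⊓ f.ker ≤ N` (`loc_inf_ker`); `Subgroup.relIndex_map_map` or a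
direct bijection of the cosets. -/
theorem relIndex_map_loc {K A : Type} [Group K] [Group A] (f : K →* A) {R N : Subgroup K}
    (h : Loc R N) (hR : ¬ R ≤ f.ker) : (N.map f).relIndex (R.map f) = N.relIndex R := by
  sorry

/-- PROOF. `Subgroup.relIndex_comap` : `(N.comap f).relIndex R' = N.relIndex (R'.map f)`, and
`Subgroup.inf_relIndex_left` or similar for the intersection with `R'`. -/
theorem relIndex_lift {K A : Type} [Group K] [Group A] (f : K →* A) {R' : Subgroup K}
    {R N : Subgroup A} (h : R'.map f = R) : (R' ⊓ N.comap f).relIndex R' = N.relIndex R := by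
  sorry

section

variable {G : Type} [Group G] {p : ℕ} {R H A B : Subgroup G} [H.Normal] {h : G}

/-- An element that centralises `R / H` is in `H`.

PROOF. For `r ∈ R` let `z r = ⁅g, r⁆ ∈ H`, so `g * r * g⁻¹ = z r * r`. Elements of `H` commute with those
of `R` (`S.cen`). So `g * ⁅r, s⁆ * g⁻¹ = ⁅z r * r, z s * s⁆ = ⁅r, s⁆` for `r s ∈ R`. The set of all
`r ∈ R` with `g * r * g⁻¹ = r` is a subgroup that contains all commutators of `R`, so it contains
`⁅R, R⁆ = R` (`S.loc.perf`, `Subgroup.commutator_le`), and `g ∈ H` by `S.cen`. -/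
theorem Setup.cen_quot (S : Setup G p R H A B h) (g : G) (hg : ∀ r ∈ R, ⁅g, r⁆ ∈ H) : g ∈ H := by
  sorry

/-- Two homomorphisms from a perfect group to `R` that agree modulo `H` are equal.

PROOF. `α l = β l * z l` with `z l ∈ H`, central in `R` (`S.cen`), so `α ⁅x, y⁆ = β ⁅x, y⁆`; the
equaliser (`MonoidHom.eqLocus`) contains `⁅⊤, ⊤⁆ = ⊤`. -/
theorem Setup.perf_hom (S : Setup G p R H A B h) {L : Type} [Group L]
    (hL : ⁅(⊤ : Subgroup L), (⊤ : Subgroup L)⁆ = ⊤) (α β : L →* R)
    (hαβ : ∀ l, ((α l : G) : G ⧸ H) = ((β l : G) : G ⧸ H)) : α = β := by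
  sorry

end

end Jnf

end MP799fdf
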