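import Pool.Agent.Lib.MP_799fdf_al.Jnf.BasA

/-! # Basic facts about `Setup`, part 2 -/

set_option autoImplicit false

open scoped commutatorElement

namespace MP799fdf

namespace Jnf

open Inn

section

variable {G : Type} [Group G] {p : ℕ} {R H A B : Subgroup G} [H.Normal] {h : G}

/-- An inner automorphism lifts to conjugation: if `τ` lifts `MulAut.conj (g : G ⧸ H)` then `τ r = g r g⁻¹`.

PROOF. `r ↦ g * r * g⁻¹` (`MulAut.conjNormal g : R ≃* R`) and `τ` agree modulo `H`, so they are equal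
(`perf_hom`, `perf_top`). -/
theorem Setup.lift_conj (S : Setup G p R H A B h) (g : G) (τ : R ≃* R)
    (hτ : ∀ r : R, (((τ r : R) : G) : G ⧸ H) = MulAut.conj (g : G ⧸ H) ((r : G) : G ⧸ H)) (r : R) :
    ((τ r : R) : G) = g * r * g⁻¹ := by
  have := S.loc.nR
  have h1 : τ.toMonoidHom = (MulAut.conjNormal g : R ≃* R).toMonoidHom := by
    refine S.perf_hom (perf_top S.loc.perf) _ _ fun l => ?_
    have h2 : (((MulAut.conjNormal g : R ≃* R) l : R) : G) = g * l * g⁻¹ :=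
      MulAut.conjNormal_apply g l
    change (((τ l : R) : G) : G ⧸ H) = ((((MulAut.conjNormal g : R ≃* R) l : R) : G) : G ⧸ H)
    rw [hτ, h2]
    rfl
  have h3 : τ r = (MulAut.conjNormal g : R ≃* R) r := DFunLike.congr_fun h1 r
  rw [h3]
  exact MulAut.conjNormal_apply g r

/-- PROOF. `S.nt1` for `MulAut.conj (g : G ⧸ H)` and `lift_conj`. -/
theorem Setup.conj_h (S : Setup G p R H A B h) (g : G) : g * h * g⁻¹ ∈ Subgroup.zpowers h := by
  obtain ⟨τ, h1, h2⟩ := S.nt1 (MulAut.conj (g : G ⧸ H))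
  have h3 := h2 ⟨h, S.loc.lt.le S.hH⟩ rfl
  rw [S.lift_conj g τ h1] at h3
  exact h3

/-- `B` centralises `h`.

PROOF. For `a ∈ A` the automorphism `MulAut.conj (a : G ⧸ H)` satisfies the condition of `S.nt2`
(`x⁻¹ * (a * x * a⁻¹) ∈ A`, `A` normal, `H ≤ R ≤ A`), so `a * h * a⁻¹ = h` (`S.nt1`, `lift_conj`). For `b ∈ B` we have
`b * h * b⁻¹ = h ^ k` (`conj_h`), so `b ^ p * h * (b ^ p)⁻¹ = h ^ (k ^ p)`; as `b ^ p ∈ A` this is `h`, so
`k ^ p = 1` modulo `p` (`orderOf h = p`), `k = k ^ p = 1` modulo `p` (`ZMod.pow_card`), and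
`b * h * b⁻¹ = h`. -/
theorem Setup.B_central (S : Setup G p R H A B h) (b : G) (hb : b ∈ B) : b * h = h * b := by
  have : Fact p.Prime := ⟨S.hp⟩
  have hA : ∀ a ∈ A, a * h * a⁻¹ = h := by
    intro a ha
    obtain ⟨τ, h1, -⟩ := S.nt1 (MulAut.conj (a : G ⧸ H))
    have h2 := S.nt2 (MulAut.conj (a : G ⧸ H)) (fun x y hxy => by
      have h3 : ((a * x * a⁻¹ : G) : G ⧸ H) = (y : G ⧸ H) := hxy
      have h4 : (a * x * a⁻¹)⁻¹ * y ∈ A := S.RA (S.loc.lt.le (QuotientGroup.eq.1 h3))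
      have h5 : x⁻¹ * a * x⁻¹⁻¹ ∈ A := S.nA.conj_mem a ha x⁻¹
      have h6 := A.mul_mem (A.mul_mem h5 (A.inv_mem ha)) h4
      have h7 : x⁻¹ * a * x⁻¹⁻¹ * a⁻¹ * ((a * x * a⁻¹)⁻¹ * y) = x⁻¹ * y := by group
      rwa [h7] at h6) τ h1 ⟨h, S.loc.lt.le S.hH⟩ rfl
    rw [S.lift_conj a τ h1] at h2
    exact h2
  obtain ⟨k, hk⟩ := Subgroup.mem_zpowers_iff.1 (S.conj_h b)
  have hpow : ∀ j : ℕ, b ^ j * h * (b ^ j)⁻¹ = h ^ (k ^ j) := by
    intro j
    induction j with
    | zero => simp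
    | succ j ih =>
      have h1 : b ^ (j + 1) * h * (b ^ (j + 1))⁻¹ = b * (b ^ j * h * (b ^ j)⁻¹) * b⁻¹ := by
        rw [pow_succ']
        group
      rw [h1, ih, ← conj_zpow, ← hk, ← zpow_mul, pow_succ']
  have ho : orderOf h = p := orderOf_eq_prime S.hhp S.h1
  have h1 : h ^ (k ^ p) = h ^ (1 : ℤ) := by
    rw [← hpow p, hA _ (S.Bp b hb), zpow_one]
  rw [zpow_eq_zpow_iff_modEq, ho, ← ZMod.intCast_eq_intCast_iff, Int.cast_pow, ZMod.pow_card,
    ZMod.intCast_eq_intCast_iff, ← ho, ← zpow_eq_zpow_iff_modEq, hk, zpow_one] at h1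
  exact mul_inv_eq_iff_eq_mul.1 h1

/-- `R / H` is the only local subgroup of `G / H` with a chief factor of order `|R / H|`.

PROOF. `loc_lift` for `QuotientGroup.mk' H` gives `Loc L' N'`, `L'.map = L`, and
`N'.relIndex L' = N.relIndex L` (`relIndex_lift`). `⁅R, L'⁆` is normal and `≤ R` and `≤ L'`. By
`S.loc.max` it is `≤ H` or `= R`. If `≤ H`: each `g ∈ L'` has `⁅g, r⁆ ∈ H` for all `r ∈ R`, so `L' ≤ H`
(`cen_quot`) and `L = ⊥`, against `hL.lt`. So `R ≤ L'`. If `R ≠ L'` then `R ≤ N'` (`max` of `L'`), and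
`N'.relIndex L'` divides `R.index` (`R ≤ N' ≤ L'`: `Subgroup.relIndex_mul_relIndex`,
`Subgroup.relIndex_mul_index`), against `S.dvd`. So `R = L'`. -/
theorem Setup.only [Finite G] (S : Setup G p R H A B h) {L N : Subgroup (G ⧸ H)} (hL : Loc L N)
    (hi : N.relIndex L = H.relIndex R) : L = R.map (QuotientGroup.mk' H) := by
  obtain ⟨L', N', hL', hmap, hN'⟩ :=
    loc_lift (QuotientGroup.mk' H) (QuotientGroup.mk'_surjective H) hL
  have hrel : N'.relIndex L' = N.relIndex L := by rw [hN', relIndex_lift _ hmap]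
  have hR := S.loc.nR
  have hL'n := hL'.nR
  have hcn : (⁅R, L'⁆).Normal := Subgroup.commutator_normal R L'
  rcases S.loc.max _ hcn (Subgroup.commutator_le_left R L') with h1 | h1
  · exfalso
    have h2 : L' ≤ H := fun g hg => S.cen_quot g fun r hr => by
      have h3 : ⁅r, g⁆ ∈ H := h1 (Subgroup.commutator_mem_commutator hr hg)
      rw [← commutatorElement_inv]
      exact H.inv_mem h3
    have h3 : L = ⊥ := by
      rw [← hmap, Subgroup.map_eq_bot_iff, QuotientGroup.ker_mk']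
      exact h2
    exact hL.ne_bot h3
  · have hRL : R ≤ L' := by
      rw [← h1]
      exact Subgroup.commutator_le_right R L'
    rcases hL'.max R S.loc.nR hRL with h2 | h2
    · exfalso
      apply S.dvd
      rw [← hi, ← hrel, ← Subgroup.relIndex_mul_index hRL,
        ← Subgroup.relIndex_mul_relIndex R N' L' h2 hL'.lt.le]
      exact Dvd.dvd.mul_right (Dvd.intro_left _ rfl) _
    · rw [h2, hmap]

end

end Jnf

end MP799fdf
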