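import Pool.Agent.Lib.MP_799fdf_al.Jnf.CompB

/-! # Counting components -/

set_option autoImplicit false

open scoped commutatorElement

namespace MP799fdf

namespace Jnf

open Inn

variable {G : Type} [Group G] {p : ℕ} {R H A B : Subgroup G} [H.Normal] {h : G}
variable {V K P : Type} [Group K] [Group P]

/-- PROOF. `loc_lift` for `comp_loc S C v`; index: `relIndex_lift`, `comp_index`. -/
theorem exists_LL [Finite P] (S : Setup G p R H A B h) (C : Comp G R H h V K) (ψ : P →* K)
    (hψ : Function.Surjective ψ) (v : V) :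
    ∃ L : LL P (H.relIndex R), L.1.map ψ = (C.ι v).range := by
  obtain ⟨R', N', hL, hm, hN⟩ := loc_lift ψ hψ (comp_loc S C v)
  refine ⟨⟨R', N', hL, ?_⟩, hm⟩
  rw [hN, relIndex_lift ψ hm, comp_index]

/-- PROOF. The inverse map takes `v` to a chosen `L` with `L.map ψ = (C.ι v).range` (`exists_LL`);
`¬ L ≤ ψ.ker` as the range is not `⊥` (`(comp_loc S C v).ne_bot`). Injective: `comp_range_inj`. Surjective:
for `L` with `¬ L ≤ ψ.ker`, `comp_image` gives `v` with `L.map ψ = (C.ι v).range`, and the chosen subgroup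
for `v` is `L` by `loc_map_inj`. -/
theorem exists_equiv [Finite G] [Finite P] [Finite K] (S : Setup G p R H A B h)
    (C : Comp G R H h V K) (ψ : P →* K) (hψ : Function.Surjective ψ) :
    ∃ e : {L : LL P (H.relIndex R) // ¬ L.1 ≤ ψ.ker} ≃ V,
      ∀ L, L.1.1.map ψ = (C.ι (e L)).range := by
  choose F hF using fun v => exists_LL S C ψ hψ v
  have hker : ∀ v, ¬ (F v).1 ≤ ψ.ker := fun v hv => by
    have h1 : (F v).1.map ψ = ⊥ := (Subgroup.map_eq_bot_iff _).2 hv
    exact (comp_loc S C v).ne_bot ((hF v).symm.trans h1)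
  let Φ : V → {L : LL P (H.relIndex R) // ¬ L.1 ≤ ψ.ker} := fun v => ⟨F v, hker v⟩
  have hbij : Function.Bijective Φ := by
    constructor
    · intro v w hvw
      have h1 : F v = F w := congrArg Subtype.val hvw
      have h2 : (C.ι v).range = (C.ι w).range := by rw [← hF, ← hF, h1]
      exact comp_range_inj S C h2
    · rintro ⟨L, hk⟩
      obtain ⟨N, hL, hi⟩ := L.2
      obtain ⟨v, hv⟩ := comp_image S C ψ hψ hL hi hk
      obtain ⟨N', hL', hi'⟩ := (F v).2
      have h1 : (F v).1 = L.1 := loc_map_inj ψ hψ hL' hL (hker v) ((hF v).trans hv.symm)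
      exact ⟨v, Subtype.ext (Subtype.ext h1)⟩
  refine ⟨(Equiv.ofBijective Φ hbij).symm, fun L => ?_⟩
  have h1 : Φ ((Equiv.ofBijective Φ hbij).symm L) = L := (Equiv.ofBijective Φ hbij).apply_symm_apply L
  have h2 : F ((Equiv.ofBijective Φ hbij).symm L) = L.1 := congrArg Subtype.val h1
  rw [← hF, h2]

/-- PROOF. Induction on the list. -/
theorem list_prod_pow {X : Type} {Q : Type} [Group Q] (z : Q) (n : X → ℕ) (l : List X) :
    (l.map fun x => z ^ n x).prod = z ^ (l.map n).sum := by
  induction l with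
  | nil => simp
  | cons x l ih => rw [List.map_cons, List.prod_cons, ih, List.map_cons, List.sum_cons, pow_add]

end Jnf

end MP799fdf
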