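import Pool.Agent.Lib.MP_799fdf_al.Jnf.BasB

/-! # The weight function -/

set_option autoImplicit false

open scoped commutatorElement

namespace MP799fdf

namespace Jnf

open Inn

variable {G : Type} [Group G] {p : ℕ} {R H A B : Subgroup G} [H.Normal] {h : G}

/-- the projection `G ⧸ H → G ⧸ A` -/
private def wtPr (hHA : H ≤ A) : G ⧸ H → G ⧸ A := Subgroup.quotientMapOfLE hHA

private theorem wtPr_mk (hHA : H ≤ A) (x : G) : wtPr hHA (x : G ⧸ H) = (x : G ⧸ A) := rfl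

private theorem wt_star (S : Setup G p R H A B h) (hHA : H ≤ A) (σ : (G ⧸ H) ≃* (G ⧸ H))
    {z z' : G ⧸ H} (hz : wtPr hHA z = wtPr hHA z') : wtPr hHA (σ z) = wtPr hHA (σ z') := by
  obtain ⟨x, rfl⟩ := QuotientGroup.mk_surjective z
  obtain ⟨y, rfl⟩ := QuotientGroup.mk_surjective z'
  obtain ⟨x', hx'⟩ := QuotientGroup.mk_surjective (σ (x : G ⧸ H))
  obtain ⟨y', hy'⟩ := QuotientGroup.mk_surjective (σ (y : G ⧸ H))
  rw [wtPr_mk, wtPr_mk, QuotientGroup.eq] at hz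
  rw [← hx', ← hy', wtPr_mk, wtPr_mk, QuotientGroup.eq]
  refine S.charA σ (x⁻¹ * y) (x'⁻¹ * y') ?_ hz
  rw [QuotientGroup.mk_mul, QuotientGroup.mk_inv, map_mul, map_inv, QuotientGroup.mk_mul,
    QuotientGroup.mk_inv, hx', hy']

/-- `z` is good for `σ` -/
private def wtGood (hHA : H ≤ A) (m : ℕ) (σ : (G ⧸ H) ≃* (G ⧸ H))
    (z : (G ⧸ A) ⊕ Fin m → G ⧸ H) : Prop :=
  (∀ x : G ⧸ A, wtPr hHA (σ.symm (z (Sum.inl x))) = x) ∧
    ∀ i : Fin m, wtPr hHA (σ.symm (z (Sum.inr i))) = ((1 : G) : G ⧸ A)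

private theorem wt_uniq (S : Setup G p R H A B h) (hHA : H ≤ A) {m : ℕ}
    {σ₁ σ₂ : (G ⧸ H) ≃* (G ⧸ H)} {z : (G ⧸ A) ⊕ Fin m → G ⧸ H} (h1 : wtGood hHA m σ₁ z)
    (h2 : wtGood hHA m σ₂ z) (τ₁ τ₂ : R ≃* R)
    (l1 : ∀ r : R, (((τ₁ r : R) : G) : G ⧸ H) = σ₁ ((r : G) : G ⧸ H))
    (l2 : ∀ r : R, (((τ₂ r : R) : G) : G ⧸ H) = σ₂ ((r : G) : G ⧸ H)) (r : R) (hr : (r : G) = h) :
    τ₁ r = τ₂ r := by
  have key : ∀ u : G ⧸ H, wtPr hHA ((σ₁.trans σ₂.symm) u) = wtPr hHA u := by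
    intro u
    have e1 : wtPr hHA u = wtPr hHA (σ₁.symm (z (Sum.inl (wtPr hHA u)))) :=
      (h1.1 (wtPr hHA u)).symm
    rw [wt_star S hHA (σ₁.trans σ₂.symm) e1]
    rw [MulEquiv.trans_apply, MulEquiv.apply_symm_apply]
    exact h2.1 (wtPr hHA u)
  have l3 : ∀ r : R, ((((τ₁.trans τ₂.symm) r : R) : G) : G ⧸ H)
      = (σ₁.trans σ₂.symm) ((r : G) : G ⧸ H) := by
    intro r
    rw [MulEquiv.trans_apply, MulEquiv.trans_apply, ← l1 r, MulEquiv.eq_symm_apply, ← l2,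
      MulEquiv.apply_symm_apply]
  have h3 := S.nt2 (σ₁.trans σ₂.symm) (fun x y hxy => by
    have h4 := key (x : G ⧸ H)
    rw [hxy, wtPr_mk, wtPr_mk] at h4
    exact QuotientGroup.eq.1 h4.symm) (τ₁.trans τ₂.symm) l3 r hr
  have h5 : τ₂.symm (τ₁ r) = r := Subtype.ext (by rw [hr]; exact h3)
  rw [MulEquiv.symm_apply_eq] at h5
  exact h5

private theorem wt_good_congr (S : Setup G p R H A B h) (hHA : H ≤ A) {m : ℕ}
    {σ : (G ⧸ H) ≃* (G ⧸ H)} {z z' : (G ⧸ A) ⊕ Fin m → G ⧸ H}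
    (hz : ∀ i, wtPr hHA (z i) = wtPr hHA (z' i)) (h1 : wtGood hHA m σ z) :
    wtGood hHA m σ z' :=
  ⟨fun x => by rw [← wt_star S hHA σ.symm (hz _)]; exact h1.1 x,
    fun i => by rw [← wt_star S hHA σ.symm (hz _)]; exact h1.2 i⟩

private theorem wt_pow_val (hp : p.Prime) (hhp : h ^ p = 1) {x : G}
    (hx : x ∈ Subgroup.zpowers h) : ∃ k : ZMod p, x = h ^ k.val := by
  obtain ⟨i, rfl⟩ := Subgroup.mem_zpowers_iff.1 hx
  have : NeZero p := ⟨hp.ne_zero⟩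
  refine ⟨(i : ZMod p), ?_⟩
  have h1 : h ^ ((p : ℕ) : ℤ) = 1 := by rw [zpow_natCast, hhp]
  rw [zpow_eq_zpow_emod i h1, ← ZMod.val_intCast, zpow_natCast]

private theorem wt_val_inj (hp : p.Prime) (hhp : h ^ p = 1) (h1 : h ≠ 1) {a b : ZMod p}
    (hab : h ^ a.val = h ^ b.val) : a = b := by
  have : Fact p.Prime := ⟨hp⟩
  have ho : orderOf h = p := orderOf_eq_prime hhp h1
  have h2 := pow_inj_mod.1 hab
  rw [ho, Nat.mod_eq_of_lt (ZMod.val_lt a), Nat.mod_eq_of_lt (ZMod.val_lt b)] at h2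
  exact ZMod.val_injective p h2

/-- The weight function for tuples `z : (G ⧸ A) ⊕ Fin m → G ⧸ H`.

PROOF. `H ≤ A` (`S.loc.lt.le.trans S.RA`); `pr := Subgroup.quotientMapOfLE hHA : G ⧸ H → G ⧸ A`,
`ω : (G ⧸ A) ⊕ Fin m → G ⧸ A := Sum.elim id (fun _ => 1)`. For `σ : G ⧸ H ≃* G ⧸ H`: if `pr z = pr z'` then
`pr (σ z) = pr (σ z')` (`S.charA` for `x⁻¹ * y`; `QuotientGroup.eq`). (★)
Say that `z` is good for `σ` if `∀ i, pr (σ.symm (z i)) = ω i`. If `z` is good for `σ₁` and for `σ₂` then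
`ρ = σ₂.symm ∘ σ₁` acts trivially modulo `A`: for `x : G ⧸ A` the element `u = σ₁.symm (z (inl x))`
has `pr u = x = pr (σ₂.symm (z (inl x))) = pr (ρ u)`, and by (★) `pr (ρ u') = pr (ρ u) = pr u'`
for all `u'` with `pr u' = x`. So by `S.nt2` every lift of `ρ` fixes `h`, and for lifts
`τ₁, τ₂` of `σ₁, σ₂` (`S.nt1`; `τ₁.trans τ₂.symm` is a lift of `ρ`) we get `τ₁ h = τ₂ h`. (1)
Definition: `Φ z = 0` if `z` is good for no `σ`; otherwise choose a good `σ` and `τ` from `S.nt1`, and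
`k : ZMod p` with `τ h = h ^ k.val` (`τ h ∈ zpowers h`, `orderOf h = p`), `Φ z = k`. By (1) this
`k` does not depend on the choice of `σ`, and all lifts `τ` of one `σ` agree on `h` too (the case `σ₁ = σ₂` of
(1)). It is best to get `Φ` from `∃ Φ, ∀ z, (∀ σ τ, z good for σ → τ lifts σ → ∀ r, (r : G) = h →`
`((τ r : R) : G) = h ^ (Φ z).val) ∧ ((∀ σ, ¬ z good for σ) → Φ z = 0)` by choice.
`Equi`: if `z` is good for `σ₁` with lift `τ₁`, then `σ ∘ z` is good for `σ₁.trans σ` with lift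
`τ₁.trans τ`, so `h ^ (Φ (σ ∘ z)).val = τ (τ₁ h) = τ (h ^ (Φ z).val) = (τ h) ^ (Φ z).val`. If `z` is good for no
`σ₁`, then the same holds for `σ ∘ z`, and both sides are `1`.
`Φ'`: by (★) being good for `σ` depends only on `pr ∘ z`, so `Φ z` depends only on `pr ∘ z`
(`pr ∘ z = pr ∘ z'` implies `Φ z = Φ z'` because `h ^ (Φ z).val = h ^ (Φ z').val` implies `Φ z = Φ z'`, `orderOf h = p`);
`Φ' w = Φ (fun i => (w i).out)`.
Last part: if all `g (inr i) ∈ A` then `z = fun i => (g i : G ⧸ H)` is good for `σ = refl`, with the lift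
`refl`, so `h = h ^ (Φ z).val`, `Φ z = 1`. If `g (inr i) ∉ A` and `z` were good for `σ`, then
`pr (σ.symm (z (inl x))) = x = pr (z (inl x))` for all `x`, so by (★) `pr (σ.symm u) = pr u` for all `u`,
and `1 = pr (σ.symm (z (inr i))) = pr (z (inr i))`, i.e. `g (inr i) ∈ A`, a contradiction. So `Φ z = 0`. -/
theorem exists_wt [Finite G] (S : Setup G p R H A B h) (m : ℕ) :
    ∃ (Φ : ((G ⧸ A) ⊕ Fin m → G ⧸ H) → ZMod p) (Φ' : ((G ⧸ A) ⊕ Fin m → G ⧸ A) → ZMod p),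
      Equi R h Φ ∧
      (∀ g : (G ⧸ A) ⊕ Fin m → G, Φ (fun i => (g i : G ⧸ H)) = Φ' fun i => (g i : G ⧸ A)) ∧
      (∀ g : (G ⧸ A) ⊕ Fin m → G, (∀ x, (g (Sum.inl x) : G ⧸ A) = x) →
        (∀ i, g (Sum.inr i) ∈ A) → Φ (fun i => (g i : G ⧸ H)) = 1) ∧
      ∀ g : (G ⧸ A) ⊕ Fin m → G, (∀ x, (g (Sum.inl x) : G ⧸ A) = x) →
        (∃ i, g (Sum.inr i) ∉ A) → Φ (fun i => (g i : G ⧸ H)) = 0 := by
  classical
  have hHA : H ≤ A := S.loc.lt.le.trans S.RA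
  have hpF : Fact p.Prime := ⟨S.hp⟩
  let r₀ : R := ⟨h, S.loc.lt.le S.hH⟩
  have hr₀ : (r₀ : G) = h := rfl
  have ex : ∀ z : (G ⧸ A) ⊕ Fin m → G ⧸ H, ∃ k : ZMod p,
      (∀ (σ : (G ⧸ H) ≃* (G ⧸ H)) (τ : R ≃* R), wtGood hHA m σ z →
        (∀ r : R, (((τ r : R) : G) : G ⧸ H) = σ ((r : G) : G ⧸ H)) →
          ∀ r : R, (r : G) = h → ((τ r : R) : G) = h ^ k.val) ∧
      ((∀ σ : (G ⧸ H) ≃* (G ⧸ H), ¬ wtGood hHA m σ z) → k = 0) := by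
    intro z
    by_cases hz : ∃ σ : (G ⧸ H) ≃* (G ⧸ H), wtGood hHA m σ z
    · obtain ⟨σ₀, hσ₀⟩ := hz
      obtain ⟨τ₀, hτ₀, hτ₁⟩ := S.nt1 σ₀
      obtain ⟨k, hk⟩ := wt_pow_val S.hp S.hhp (hτ₁ r₀ hr₀)
      refine ⟨k, ?_, fun hn => absurd hσ₀ (hn σ₀)⟩
      intro σ τ hσ hτ r hr
      have e : r = r₀ := Subtype.ext (hr.trans hr₀.symm)
      rw [wt_uniq S hHA hσ hσ₀ τ τ₀ hτ hτ₀ r hr, e]
      exact hk
    · exact ⟨0, fun σ τ hσ => absurd ⟨σ, hσ⟩ hz, fun _ => rfl⟩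
  choose Φ hΦ1 hΦ2 using ex
  have congr : ∀ z z' : (G ⧸ A) ⊕ Fin m → G ⧸ H, (∀ i, wtPr hHA (z i) = wtPr hHA (z' i)) →
      Φ z = Φ z' := by
    intro z z' hzz
    by_cases hz : ∃ σ : (G ⧸ H) ≃* (G ⧸ H), wtGood hHA m σ z
    · obtain ⟨σ, hσ⟩ := hz
      obtain ⟨τ, hτ, -⟩ := S.nt1 σ
      have e1 := hΦ1 z σ τ hσ hτ r₀ hr₀
      have e2 := hΦ1 z' σ τ (wt_good_congr S hHA hzz hσ) hτ r₀ hr₀
      exact wt_val_inj S.hp S.hhp S.h1 (e1.symm.trans e2)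
    · have hz' : ∀ σ : (G ⧸ H) ≃* (G ⧸ H), ¬ wtGood hHA m σ z' := fun σ hσ =>
        hz ⟨σ, wt_good_congr S hHA (fun i => (hzz i).symm) hσ⟩
      rw [hΦ2 z (fun σ hσ => hz ⟨σ, hσ⟩), hΦ2 z' hz']
  refine ⟨Φ, fun w => Φ fun i => (((w i).out : G) : G ⧸ H), ?_, ?_, ?_, ?_⟩
  · intro σ τ hτ r hr z
    by_cases hz : ∃ σ₁ : (G ⧸ H) ≃* (G ⧸ H), wtGood hHA m σ₁ z
    · obtain ⟨σ₁, hσ₁⟩ := hz
      obtain ⟨τ₁, hτ₁, -⟩ := S.nt1 σ₁
      have g1 : wtGood hHA m (σ₁.trans σ) (fun i => σ (z i)) := by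
        refine ⟨fun x => ?_, fun i => ?_⟩
        · rw [MulEquiv.symm_trans_apply, MulEquiv.symm_apply_apply]
          exact hσ₁.1 x
        · rw [MulEquiv.symm_trans_apply, MulEquiv.symm_apply_apply]
          exact hσ₁.2 i
      have e1 := hΦ1 z σ₁ τ₁ hσ₁ hτ₁ r hr
      have e2 := hΦ1 (fun i => σ (z i)) (σ₁.trans σ) (τ₁.trans τ) g1 (fun s => by
        rw [MulEquiv.trans_apply, MulEquiv.trans_apply, hτ, hτ₁]) r hr
      have e3 : τ₁ r = r ^ (Φ z).val := Subtype.ext (by rw [e1, Subgroup.coe_pow, hr])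
      rw [MulEquiv.trans_apply, e3, map_pow, Subgroup.coe_pow] at e2
      exact e2
    · have hz' : ∀ σ₂ : (G ⧸ H) ≃* (G ⧸ H), ¬ wtGood hHA m σ₂ (fun i => σ (z i)) := by
        intro σ₂ hσ₂
        refine hz ⟨σ₂.trans σ.symm, fun x => ?_, fun i => ?_⟩
        · rw [MulEquiv.symm_trans_apply, MulEquiv.symm_symm]
          exact hσ₂.1 x
        · rw [MulEquiv.symm_trans_apply, MulEquiv.symm_symm]
          exact hσ₂.2 i
      rw [hΦ2 z (fun σ' hσ' => hz ⟨σ', hσ'⟩), hΦ2 _ hz', ZMod.val_zero, pow_zero, pow_zero]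
  · intro g
    refine congr _ _ fun i => ?_
    rw [wtPr_mk, wtPr_mk, QuotientGroup.out_eq']
  · intro g hg1 hg2
    have g1 : wtGood hHA m (MulEquiv.refl (G ⧸ H)) (fun i => (g i : G ⧸ H)) := by
      refine ⟨fun x => ?_, fun i => ?_⟩
      · rw [MulEquiv.refl_symm, MulEquiv.refl_apply, wtPr_mk]
        exact hg1 x
      · rw [MulEquiv.refl_symm, MulEquiv.refl_apply, wtPr_mk]
        exact QuotientGroup.eq.2 (A.mul_mem (A.inv_mem (hg2 i)) A.one_mem)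
    have e1 := hΦ1 _ (MulEquiv.refl (G ⧸ H)) (MulEquiv.refl R) g1 (fun s => by
      rw [MulEquiv.refl_apply, MulEquiv.refl_apply]) r₀ hr₀
    refine wt_val_inj S.hp S.hhp S.h1 ?_
    rw [← e1, ZMod.val_one, pow_one]
    rfl
  · rintro g hg1 ⟨i, hi⟩
    refine hΦ2 _ fun σ hσ => hi ?_
    have key : ∀ u : G ⧸ H, wtPr hHA (σ.symm u) = wtPr hHA u := by
      intro u
      have e1 : wtPr hHA u = wtPr hHA ((g (Sum.inl (wtPr hHA u)) : G) : G ⧸ H) := by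
        rw [wtPr_mk]
        exact (hg1 _).symm
      rw [wt_star S hHA σ.symm e1]
      exact hσ.1 (wtPr hHA u)
    have e2 := hσ.2 i
    rw [key, wtPr_mk] at e2
    have e3 := QuotientGroup.eq.1 e2.symm
    rwa [inv_one, one_mul] at e3

end Jnf

end MP799fdf
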