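import Pool.Agent.Lib.MP_799fdf_al.Jnf.MainA

/-! # The product of the marked elements -/

set_option autoImplicit false

open scoped commutatorElement

namespace MP799fdf

namespace Jnf

open Inn

variable {G : Type} [Group G] {p : ℕ} {R H A B : Subgroup G} [H.Normal] {h : G}
variable {V K P : Type} [Group K] [Group P]

/-- PROOF. Fix `v₀ : V`, `z = C.ι v₀ r`. For every `L`, `ψ (e L) = z ^ n L` where `n L = 0` if `L ≤ ψ.ker` and
`n L = (Φ fun i => C.π v (ψ (y i))).val` for `v` with `L.map ψ = (C.ι v).range` (`comp_image`, `C.same`)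
otherwise. By `list_prod_pow` the image of the product is `z ^ N`, `N = ∑ L, n L`
`= ∑ v, (Φ ..).val` (`exists_equiv`; `Finset.sum_equiv`-like, `comp_range_inj`). `z` has order `p` (`C.inj`, `S.h1`, `S.hhp`,
`S.hp`), and `N` is `0` in `ZMod p` iff `∑ v, Φ .. = 0`. -/
theorem prod_marks [Finite P] [Finite G] [Finite K] [Fintype V] [Nonempty V]
    (S : Setup G p R H A B h) (C : Comp G R H h V K) (ψ : P →* K) (hψ : Function.Surjective ψ)
    {I : Type} (Φ : (I → G ⧸ H) → ZMod p) (y : I → P) (r : R) (hr : (r : G) = h)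
    [Fintype (LL P (H.relIndex R))] (e : LL P (H.relIndex R) → P)
    (he1 : ∀ (L : LL P (H.relIndex R)) (v : V), L.1.map ψ = (C.ι v).range →
      ψ (e L) = C.ι v (r ^ (Φ fun i => C.π v (ψ (y i))).val))
    (he2 : ∀ L : LL P (H.relIndex R), L.1 ≤ ψ.ker → ψ (e L) = 1) :
    ψ ((Finset.univ.toList.map e).prod) = 1 ↔ ∑ v : V, (Φ fun i => C.π v (ψ (y i))) = 0 := by
  classical
  obtain ⟨v₀⟩ := ‹Nonempty V›
  have hpf : Fact p.Prime := ⟨S.hp⟩
  have hpn : NeZero p := ⟨S.hp.ne_zero⟩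
  have hrp : r ^ p = 1 := by
    apply Subtype.ext
    rw [SubgroupClass.coe_pow, hr, S.hhp]
    rfl
  have hr1 : r ≠ 1 := by
    intro h5
    apply S.h1
    rw [← hr, h5]
    rfl
  have hord : orderOf (C.ι v₀ r) = p := by
    refine orderOf_eq_prime ?_ ?_
    · rw [← map_pow, hrp, map_one]
    · intro h5
      exact hr1 (C.inj v₀ (h5.trans (map_one _).symm))
  have hcz : ∀ v, C.ι v r = C.ι v₀ r := fun v => C.same v v₀ r hr
  obtain ⟨ε, hε⟩ := exists_equiv S C ψ hψ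
  let w : V → ℕ := fun v => (Φ fun i => C.π v (ψ (y i))).val
  let n : LL P (H.relIndex R) → ℕ :=
    fun L => if hL : ¬ L.1 ≤ ψ.ker then w (ε ⟨L, hL⟩) else 0
  have h1 : ∀ L, ψ (e L) = C.ι v₀ r ^ n L := by
    intro L
    by_cases hL : ¬ L.1 ≤ ψ.ker
    · have hn : n L = w (ε ⟨L, hL⟩) := dif_pos hL
      rw [hn, he1 L (ε ⟨L, hL⟩) (hε ⟨L, hL⟩), map_pow, hcz]
    · have hn : n L = 0 := dif_neg hL
      rw [hn, he2 L (not_not.1 hL), pow_zero]
  have h3 : ∑ L, n L = ∑ v, w v := by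
    rw [← Fintype.sum_subtype_add_sum_subtype (fun L : LL P (H.relIndex R) => ¬ L.1 ≤ ψ.ker) n,
      Finset.sum_eq_zero (s := (Finset.univ : Finset {L : LL P (H.relIndex R) // ¬ ¬ L.1 ≤ ψ.ker}))
        (fun L _ => dif_neg L.2), add_zero, ← Equiv.sum_comp ε w]
    exact Finset.sum_congr rfl fun L _ => dif_pos L.2
  have h2 : ψ ((Finset.univ.toList.map e).prod) = C.ι v₀ r ^ (∑ v, w v) := by
    have h4 : (⇑ψ ∘ e) = fun L => C.ι v₀ r ^ n L := funext h1
    rw [map_list_prod, List.map_map, h4, list_prod_pow, Finset.sum_map_toList, h3]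
  rw [h2, ← orderOf_dvd_iff_pow_eq_one, hord, ← ZMod.natCast_eq_zero_iff, Nat.cast_sum]
  have h6 : ∀ v : V, ((w v : ℕ) : ZMod p) = Φ fun i => C.π v (ψ (y i)) := fun v =>
    ZMod.natCast_zmod_val _
  rw [Finset.sum_congr rfl fun v _ => h6 v]

end Jnf

end MP799fdf
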